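import Pool.Agent.Run7.h4.QS.AB
import Pool.Agent.Run7.h897.ST.Comb

/-!
# NM: almost minimisers of polynomial size
-/

open Matrix MeasureTheory Filter Topology
open Run7.h4.YM Run7.h4.VS Run7.h182.QS

namespace Run7.h4.QS

noncomputable section

section

variable {N l : ℕ} [NeZero N] [NeZero l] {k : ℕ} {hζ : IsPrimitiveRoot (om N k) N}
  {P0 Q0 : SU N} {F : FC N l → Fib l → SU N}
  {lab : FC N l → (Fib l → SU N) → FC N l → ZMod N} {C : ℝ}

/-- the framed configuration in the proof of `Fra.key` -/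
theorem key_config (h : Fra hζ P0 Q0 F lab C) (m : ℕ → ℕ → ℕ) (u : LC N l) (a b : ℕ) (ha : 1 ≤ a)
    (hb : 1 ≤ b) (i : ℕ)
    (hi : (∑ t ∈ Finset.range a, ∑ x ∈ Finset.range b, chN lab (m t x) u t x) = (i : ZMod N)) :
    ∃ w : LC N l, Framed P0 Q0 a b w ∧ EN k (corner i) a b w ≤ EN k m a b u +
      (1 + 3456 * (l : ℝ) ^ 2 * C ^ 2) * ∑ p ∈ ring a b, cN k (m p.1 p.2) u p.1 p.2 := by
  obtain ⟨w', h1, h2⟩ := move (N := N) (l := l) (k := k) hζ a b ha hb
    (fun t x => chN lab (m t x) u t x) (w2 P0 Q0 a b (w1 hζ F lab a b u)) i hi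
  refine ⟨w', (framed_w2 P0 Q0 a b (w1 hζ F lab a b u)).agree h1, ?_⟩
  rw [h2, sum_ring a b fun t x => cN k (m t x) u t x]
  unfold EN
  rw [Finset.mul_sum, ← Finset.sum_add_distrib]
  refine Finset.sum_le_sum fun t ht => ?_
  rw [Finset.mul_sum, ← Finset.sum_add_distrib]
  refine Finset.sum_le_sum fun x hx => ?_
  rw [Finset.mem_range] at ht hx
  by_cases hr : t = 0 ∨ t + 1 = a ∨ x = 0 ∨ x + 1 = b
  · rw [if_pos hr]
    have := cN_w2 h (m t x) ht hx u
    linarith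
  · rw [if_neg hr, mul_zero, add_zero]
    rw [cN_w2_inner _ _ (by omega) (by omega) (by omega) (by omega), cN_w1]

end

theorem sum_le_univ {n : ℕ} [NeZero n] {K : ℕ} (hK : K ≤ n) (s : ZMod n) (g : ZMod n → ℝ)
    (hg : ∀ t, 0 ≤ g t) : ∑ t ∈ Finset.range K, g (s + (t : ZMod n)) ≤ ∑ t, g t := by
  have h1 : ∑ t ∈ Finset.range K, g (s + (t : ZMod n)) =
      ∑ z ∈ (Finset.range K).image (fun t : ℕ => s + (t : ZMod n)), g z := by
    rw [Finset.sum_image]
    intro x hx y hy hxy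
    rw [Finset.mem_coe, Finset.mem_range] at hx hy
    exact Pool.Agent.Run7.h897.CO.cast_inj' (by omega) (by omega) (add_left_cancel hxy)
  rw [h1]
  exact Finset.sum_le_sum_of_subset_of_nonneg (Finset.subset_univ _) fun _ _ _ => hg _

theorem sum2_le_univ {n L : ℕ} [NeZero n] [NeZero L] {a b : ℕ} (ha : a ≤ n) (hb : b ≤ L)
    (s : ZMod n) (r : ZMod L) (e : ZMod n → ZMod L → ℝ) (he : ∀ t x, 0 ≤ e t x) :
    ∑ t ∈ Finset.range a, ∑ x ∈ Finset.range b, e (s + (t : ZMod n)) (r + (x : ZMod L)) ≤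
      ∑ t, ∑ x, e t x := by
  refine (Finset.sum_le_sum fun (t : ℕ) _ => sum_le_univ hb r (fun x => e (s + (t : ZMod n)) x)
    fun x => he _ x).trans ?_
  exact sum_le_univ ha s (fun t => ∑ x, e t x) fun t => Finset.sum_nonneg fun x _ => he _ _

/-- **NM** -/
theorem t_NM (hCOMB : S_COMB2) : S_NM := by
  intro N k _ hN hk hζ P0 Q0 hs ε hε
  obtain ⟨Ck, q, hCk, hky⟩ := t_KY N k hζ P0 Q0 hs
  obtain ⟨A, B, hA, hAB⟩ := t_AB N k hN hk hζ P0 Q0 hs
  obtain ⟨κ, hκ, hcomb⟩ := hCOMB N (B + ε) (ε / 4) (by linarith)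
  refine ⟨κ * Ck, q, Nat.mul_pos hκ hCk, fun l _ c T hT => ?_⟩
  obtain ⟨i, hi, hST⟩ := hT
  have hTB : T ≤ B := by rw [← hST]; exact (hAB l i).1
  obtain ⟨F, lab, C, hfra, -, hCD, hgood⟩ := hky l
  obtain ⟨D, hD⟩ : ∃ D, D = Ck * l ^ q := ⟨_, rfl⟩
  rw [← hD] at hCD hgood
  have hD1 : 1 ≤ D := by
    rw [hD]
    exact Nat.mul_pos hCk (Nat.pos_of_ne_zero (pow_ne_zero _ (NeZero.ne l)))
  -- a configuration on a large torus
  have hlim := hfra.lim hs i
  rw [hST] at hlim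
  have hev := (hlim.eventually (gt_mem_nhds (show T < T + ε / 8 by linarith))).and
    (eventually_ge_atTop (κ * D, κ * D))
  obtain ⟨p, hp1, hp2⟩ := hev.exists
  have hpn : κ * D ≤ p.1 + 1 := le_trans hp2.1 (Nat.le_succ _)
  have hpL : κ * D ≤ p.2 + 1 := le_trans hp2.2 (Nat.le_succ _)
  unfold Sm at hp1
  obtain ⟨E, ⟨U, rfl⟩, hU⟩ := exists_lt_of_csInf_lt (Set.range_nonempty _) hp1
  obtain ⟨f, hf⟩ : ∃ f : ZMod (p.1 + 1) → ZMod (p.2 + 1) → ZMod N,
      f = fl (i : ZMod N) (0 : ZMod (p.1 + 1)) (0 : ZMod (p.2 + 1)) := ⟨_, rfl⟩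
  have hU' : AT k f U < T + ε / 8 := by rw [hf]; exact hU
  have he : ∀ (t : ZMod (p.1 + 1)) (x : ZMod (p.2 + 1)),
      0 ≤ cT k (f t x).val U t x := fun t x => cT_nonneg hζ _ _ _ _
  obtain ⟨s, r, a, b, ha, hb, haK, hbK, hr1, hr2, hr3⟩ := hcomb c D hD1 (p.1 + 1) (p.2 + 1) hpn hpL
    (fun t x => cT k (f t x).val U t x)
    (fun t x => chT lab (f t x).val U t x) he (fun t x h => by
      refine hgood _ _ _ _ ?_
      rw [← cT_lift]; exact h) (fun s r => by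
      refine (sum2_le_univ hpn hpL s r _ he).trans ?_
      have : AT k f U < T + ε / 8 := hU'
      unfold AT at this
      linarith) (by
      rw [sum_chT, hf, sum_fl]
      intro h0
      apply hi
      rw [← ZMod.natCast_eq_zero_iff, Nat.cast_mul]
      exact h0)
  obtain ⟨Q, hQ⟩ : ∃ Q, Q = ∑ t ∈ Finset.range a, ∑ x ∈ Finset.range b,
      chT lab (f (s + t) (r + x)).val U (s + t) (r + x) := ⟨_, rfl⟩
  have h1 : (∑ t ∈ Finset.range a, ∑ x ∈ Finset.range b,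
      chN lab (f (s + t) (r + x)).val (lift s r U) t x) =
        ((Q.val : ℕ) : ZMod N) := by
    rw [ZMod.natCast_val, ZMod.cast_id, hQ]
    refine Finset.sum_congr rfl fun t _ => Finset.sum_congr rfl fun x _ => ?_
    rw [chT_lift]
  obtain ⟨w, hw1, hw2⟩ := key_config hfra
    (fun t x => (f (s + t) (r + x)).val) (lift s r U) a b ha hb Q.val h1
  refine ⟨Q.val, a, b, w, ?_, ha, hb, ?_, ?_, hw1, hw2.trans ?_⟩
  · intro hd
    have h4 := (ZMod.natCast_eq_zero_iff (c * Q.val) N).mpr hd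
    rw [Nat.cast_mul, ZMod.natCast_val, ZMod.cast_id] at h4
    apply hr3
    rw [← hQ]
    exact h4
  · rw [mul_assoc, ← hD]; exact haK
  · rw [mul_assoc, ← hD]; exact hbK
  · have e1 : EN k (fun t x => (f (s + t) (r + x)).val) a b (lift s r U) ≤
        T + ε / 8 := by
      unfold EN
      simp only [cN_lift]
      refine (sum2_le_univ (haK.trans hpn) (hbK.trans hpL) s r _ he).trans ?_
      have : AT k f U < T + ε / 8 := hU'
      unfold AT at this
      exact this.le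
    have e2 : (∑ p ∈ ring a b, cN k (f (s + (p.1 : ℕ)) (r + (p.2 : ℕ))).val
        (lift s r U) p.1 p.2) = ∑ p ∈ ring a b,
          cT k (f (s + (p.1 : ℕ)) (r + (p.2 : ℕ))).val U (s + (p.1 : ℕ))
            (r + (p.2 : ℕ)) := Finset.sum_congr rfl fun p _ => cN_lift _ _ _ _ _ _ _
    have e3 : 0 ≤ ∑ p ∈ ring a b,
          cT k (f (s + (p.1 : ℕ)) (r + (p.2 : ℕ))).val U (s + (p.1 : ℕ))
            (r + (p.2 : ℕ)) := Finset.sum_nonneg fun p _ => he _ _
    have e4 := mul_le_mul_of_nonneg_right hCD e3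
    rw [e2]
    linarith

end

end Run7.h4.QS
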