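import Pool.Agent.Run7.h4.QS.KY
import Pool.Agent.Run7.h897.QS.SM
import Pool.Agent.Run7.h863.QC.Q12
import Pool.Agent.Run7.h897.ST.Bri

/-!
# SM: the fluxes are small at polynomially large `β`
-/

open Matrix MeasureTheory Filter Topology
open Pool.Agent.Run7.h897.TW (ZT)
open Pool.Agent.Run7.h897.ST (S4 S6 mu6)
open Pool.Agent.Run7.h871.TC (wE)
open Run7.h4.YM Run7.h4.VS Run7.h182.QS

namespace Run7.h4.QS

noncomputable section

section

variable {N l : ℕ} [NeZero N] [NeZero l] {k : ℕ} {hζ : IsPrimitiveRoot (om N k) N}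
  {P0 Q0 : SU N}

/-- every configuration with flux has an action of at least `D⁻¹` -/
theorem AT_ge {n L : ℕ} [NeZero n] [NeZero L] {D : ℕ} (hky : Ky hζ P0 Q0 l D) {i : ZMod N}
    (hi : i ≠ 0) (U : Link n L l → SU N) : (D : ℝ)⁻¹ ≤ AT k (fl i 0 0) U := by
  obtain ⟨F, lab, C, hfra, -, -, hgood⟩ := hky
  by_contra hlt
  push Not at hlt
  apply hi
  have h := sum_chT lab (fl i (0 : ZMod n) (0 : ZMod L)) U
  rw [sum_fl] at h
  rw [← h]
  refine Finset.sum_eq_zero fun t _ => Finset.sum_eq_zero fun x _ => ?_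
  unfold chT
  refine hgood _ _ _ _ ?_
  rw [← cT_lift]
  refine lt_of_le_of_lt ?_ hlt
  unfold AT
  refine (Finset.single_le_sum (f := fun x => cT k (fl i (0 : ZMod n) (0 : ZMod L) t x).val U t x)
    (fun x _ => cT_nonneg hζ _ _ _ _) (Finset.mem_univ x)).trans ?_
  exact Finset.single_le_sum
    (f := fun t => ∑ x, cT k (fl i (0 : ZMod n) (0 : ZMod L) t x).val U t x)
    (fun t _ => Finset.sum_nonneg fun x _ => cT_nonneg hζ _ _ _ _) (Finset.mem_univ t)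

theorem Zi_small [MeasurableSpace (SU N)] [BorelSpace (SU N)] (μ : Measure (SU N))
    [IsProbabilityMeasure μ] {n L : ℕ} [NeZero n] [NeZero L] {D : ℕ} (hky : Ky hζ P0 Q0 l D)
    {i : ZMod N} (hi : i ≠ 0) {β : ℝ} (hβ : 0 ≤ β) :
    Zi μ n L l k i β ≤ Real.exp (-(β * (D : ℝ)⁻¹)) := by
  unfold Zi
  have h1 : ∫ U : Link n L l → SU N, Real.exp (-(β * AT k (fl i 0 0) U))
      ∂(Measure.pi fun _ => μ) ≤ ∫ _U : Link n L l → SU N, Real.exp (-(β * (D : ℝ)⁻¹))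
      ∂(Measure.pi fun _ => μ) := by
    refine integral_mono (((Bd.of_continuous (cont_AT _)).smul β).neg.exp.integrable)
      (integrable_const _) fun U => ?_
    exact Real.exp_le_exp.mpr (neg_le_neg (mul_le_mul_of_nonneg_left (AT_ge hky hi U) hβ))
  refine h1.trans (le_of_eq ?_)
  simp

end

/-- numbers -/
theorem sm_num {a b v : ℝ} {q r l : ℕ} {β : ℝ} {Ck : ℝ} (hl : 1 ≤ l) (ha : 0 ≤ a) (hb : 0 ≤ b)
    (hCk : 0 < Ck) (hv0 : 0 ≤ v) (hv : v ≤ a * l ^ 6) (hl0 : Ck * (a * (3 * b) + r) ≤ l)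
    (hβ : (l : ℝ) ^ (2 * (q + 7)) ≤ β) :
    v * (b * (1 + Real.log β)) + r * Real.log l ≤ β * (Ck * (l : ℝ) ^ q)⁻¹ := by
  have hlr : (1 : ℝ) ≤ l := by exact_mod_cast hl
  have hl0' : (0 : ℝ) < l := by linarith
  have hβ1 : 1 ≤ β := (one_le_pow₀ hlr).trans hβ
  have hβ0 : 0 < β := by linarith
  obtain ⟨s, hs⟩ : ∃ s, s = Real.sqrt β := ⟨_, rfl⟩
  have hs1 : 1 ≤ s := by rw [hs, Real.one_le_sqrt]; exact hβ1
  have hss : s * s = β := by rw [hs]; exact Real.mul_self_sqrt hβ0.le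
  have hls : (l : ℝ) ^ (q + 7) ≤ s := by
    rw [hs]
    refine Real.le_sqrt_of_sq_le ?_
    rw [← pow_mul, mul_comm]
    exact hβ
  have hlog : Real.log β ≤ 2 * s := by
    have h1 : Real.log β = 2 * Real.log s := by
      rw [hs, Real.log_sqrt hβ0.le]; ring
    have h2 : Real.log s ≤ s := (Real.log_le_sub_one_of_pos (by linarith)).trans (by linarith)
    rw [h1]; linarith
  have hlog0 : 0 ≤ Real.log β := Real.log_nonneg hβ1
  have hll : Real.log l ≤ s := by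
    have h1 : Real.log l ≤ l := (Real.log_le_sub_one_of_pos hl0').trans (by linarith)
    have h2 : (l : ℝ) ≤ (l : ℝ) ^ (q + 7) := by
      calc (l : ℝ) = (l : ℝ) ^ 1 := (pow_one _).symm
        _ ≤ _ := pow_le_pow_right₀ hlr (by omega)
    linarith
  have hl6 : (1 : ℝ) ≤ (l : ℝ) ^ 6 := one_le_pow₀ hlr
  -- the left side
  have h3 : v * (b * (1 + Real.log β)) ≤ (a * l ^ 6) * (b * (3 * s)) := by
    refine mul_le_mul hv ?_ (by positivity) (by positivity)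
    exact mul_le_mul_of_nonneg_left (by linarith) hb
  have h4 : (r : ℝ) * Real.log l ≤ r * (s * l ^ 6) := by
    refine mul_le_mul_of_nonneg_left ?_ (Nat.cast_nonneg r)
    nlinarith
  have h5 : v * (b * (1 + Real.log β)) + r * Real.log l ≤ (a * (3 * b) + r) * (l ^ 6 * s) := by
    linarith
  refine h5.trans ?_
  rw [← div_eq_mul_inv, le_div_iff₀ (by positivity)]
  calc (a * (3 * b) + r) * ((l : ℝ) ^ 6 * s) * (Ck * (l : ℝ) ^ q)
      = (Ck * (a * (3 * b) + r)) * ((l : ℝ) ^ 6 * (l : ℝ) ^ q) * s := by ring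
    _ ≤ l * ((l : ℝ) ^ 6 * (l : ℝ) ^ q) * s := by gcongr
    _ = (l : ℝ) ^ (q + 7) * s := by ring
    _ ≤ s * s := mul_le_mul_of_nonneg_right hls (by linarith)
    _ = β := hss

open Pool.Agent.Run7.h897.QS in
/-- **SM** -/
theorem t_SM : S_SM := by
  intro N k _ hN hk _ _ _ _ μ _ _ C r
  have hinv := inv_inv' μ
  have hζ := om_prim (N := N) hk
  obtain ⟨P0, Q0, hs⟩ := Run7.h4.VS.exists_std hζ
  obtain ⟨Ck, q, hCk, hky⟩ := t_KY N k hζ P0 Q0 hs
  obtain ⟨c, hc, hball⟩ := Run7.h771.MQ.t_E1 N μ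
  obtain ⟨a, ha⟩ : ∃ a : ℝ, a = 4 * (C : ℝ) ^ 2 := ⟨_, rfl⟩
  obtain ⟨b, hb⟩ : ∃ b : ℝ, b = 4 * (|Real.log c| + N ^ 2) + 48 := ⟨_, rfl⟩
  have ha0 : 0 ≤ a := by rw [ha]; positivity
  have hb0 : 0 ≤ b := by rw [hb]; positivity
  have hCk0 : (0 : ℝ) < Ck := by exact_mod_cast hCk
  obtain ⟨l0, hl0⟩ : ∃ n : ℕ, Ck * (a * (3 * b) + r) ≤ (n : ℝ) := exists_nat_ge _
  refine ⟨2 * (q + 7), l0, fun l _ hl β hβ => ?_⟩
  have hl1 : 1 ≤ l := NeZero.one_le
  have hlr : (1 : ℝ) ≤ l := by exact_mod_cast hl1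
  have hβ1 : 1 ≤ β := (one_le_pow₀ hlr).trans hβ
  choose ix hix using fun j => exists_flux hζ j
  intro p p' _ _ hp hp' hpA hpA' j hj
  haveI : NeZero p := ⟨by omega⟩
  haveI : NeZero p' := ⟨by omega⟩
  obtain ⟨i, hi⟩ : ∃ i, i = ix j.val := ⟨_, rfl⟩
  have hix' := hix j.val
  rw [← hi] at hix'
  have hrel := flux_rel hix'
  rw [ZMod.natCast_val, ZMod.cast_id] at hrel
  have hi0 : (i : ZMod N) ≠ 0 := by
    intro h0
    rw [h0, mul_zero] at hrel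
    exact hj hrel.symm
  have e1 : ZT (mu6 μ) (wE N l k β) j (2 * p) (2 * p') =
      Zi μ (2 * p) (2 * p') l k (i : ZMod N) β := by
    rw [← Run7.h4.VS.Zf_eq μ hζ hix' β, Pool.Agent.Run7.h897.ST.Zf_eq μ k j.val β,
      ZMod.natCast_val, ZMod.cast_id]
  have e2 : ZT (mu6 μ) (wE N l k β) 0 (2 * p) (2 * p') = ZZ μ p p' l k β := by
    rw [← Run7.h4.VS.Zf_zero μ p p' hζ β, Pool.Agent.Run7.h897.ST.Zf_eq μ k 0 β, Nat.cast_zero]
  rw [e1, e2]
  have hZ := ZZ_pos (N := N) (m := p) (m' := p') (l := l) μ k β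
  have h1 := Zi_small μ (n := 2 * p) (L := 2 * p') (hky l) hi0 (β := β) (by linarith)
  have h2 := Run7.h863.QC.log_lower μ hk hc hball p p' l hβ1
  obtain ⟨v, hv⟩ : ∃ v : ℝ, v = 2 * p' * (2 * p) * l ^ 2 := ⟨_, rfl⟩
  have hv0 : 0 ≤ v := by rw [hv]; positivity
  have hlogβ : 0 ≤ Real.log β := Real.log_nonneg hβ1
  have h3 : -Real.log (ZZ μ p p' l k β) ≤ v * (b * (1 + Real.log β)) := by
    refine h2.trans ?_
    have h4 : 4 * (|Real.log c| + N ^ 2 * Real.log β) + 48 ≤ b * (1 + Real.log β) := by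
      rw [hb]
      have := mul_nonneg (abs_nonneg (Real.log c)) hlogβ
      have h5 : (0 : ℝ) ≤ (N : ℝ) ^ 2 := by positivity
      nlinarith
    have h5 := mul_le_mul_of_nonneg_left h4 hv0
    calc 2 * (p' : ℝ) * (2 * p) * (l ^ 2 * (4 * (|Real.log c| + N ^ 2 * Real.log β) + 48))
        = v * (4 * (|Real.log c| + N ^ 2 * Real.log β) + 48) := by rw [hv]; ring
      _ ≤ _ := h5
  have hva : v ≤ a * l ^ 6 := by
    have hp1 : (p : ℝ) ≤ C * l ^ 2 := by exact_mod_cast hpA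
    have hp2 : (p' : ℝ) ≤ C * l ^ 2 := by exact_mod_cast hpA'
    calc v = 2 * p' * (2 * p) * l ^ 2 := hv
      _ ≤ 2 * (C * l ^ 2) * (2 * (C * l ^ 2)) * l ^ 2 := by gcongr
      _ = _ := by rw [ha]; ring
  have h6 := sm_num (q := q) (r := r) (l := l) (β := β) (Ck := (Ck : ℝ)) hl1 ha0 hb0 hCk0 hv0 hva
    (hl0.trans (by exact_mod_cast hl)) hβ
  have eD : ((Ck * l ^ q : ℕ) : ℝ) = Ck * (l : ℝ) ^ q := by push_cast; rfl
  rw [eD] at h1
  refine h1.trans ?_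
  have h7 : ((l : ℝ) ^ r)⁻¹ * ZZ μ p p' l k β =
      Real.exp (-(r * Real.log l) + Real.log (ZZ μ p p' l k β)) := by
    rw [Real.exp_add, Real.exp_log hZ, Real.exp_neg, Real.exp_nat_mul,
      Real.exp_log (by linarith)]
  rw [h7]
  exact Real.exp_le_exp.2 (by linarith)

end

end Run7.h4.QS
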