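import Pool.Agent.Run7.h4.QS.NM
import Pool.Agent.Run7.h771.MQ.E1

/-!
# UP: the upper bound at polynomially large `β`
-/

open Matrix MeasureTheory Filter Topology
open Run7.h4.YM Run7.h4.VS Run7.h182.QS

namespace Run7.h4.QS

noncomputable section

/-- **BALL** -/
theorem t_BALL : S_BALL := by
  intro N _ _ _ μ _ _
  obtain ⟨c, hc, h⟩ := Run7.h771.MQ.t_E1 N μ
  refine ⟨c, hc, fun η h1 h2 => (h η h1 h2).trans (le_of_eq ?_)⟩
  unfold ball
  congr 1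
  ext g
  simp only [Set.mem_ofPred_eq]
  rw [dd_eq_norm, coe_one']

section

variable {N l : ℕ} [NeZero N] [NeZero l] {k : ℕ} {hζ : IsPrimitiveRoot (om N k) N}
  {P0 Q0 : SU N}

/-- some square has at least the energy of a vortex -/
theorem square_of' {n L : ℕ} [NeZero n] [NeZero L] {c D κ : ℕ} {S ε B : ℝ} (hD : 1 ≤ D)
    (hky : Ky hζ P0 Q0 l D) (hSB : S ≤ B)
    (hS : ∀ i : ℕ, ¬ N ∣ c * i → S ≤ SF k P0 Q0 l i)
    (hcomb : ∀ (e : ZMod n → ZMod L → ℝ) (q : ZMod n → ZMod L → ZMod N), (∀ t x, 0 ≤ e t x) →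
      (∀ t x, e t x < (D : ℝ)⁻¹ → q t x = 0) →
      (∀ (s : ZMod n) (r : ZMod L), ∑ t ∈ Finset.range (κ * D), ∑ x ∈ Finset.range (κ * D),
        e (s + t) (r + x) ≤ B) →
      (c : ZMod N) * (∑ t, ∑ x, q t x) ≠ 0 →
      ∃ (s : ZMod n) (r : ZMod L) (a b : ℕ), 1 ≤ a ∧ 1 ≤ b ∧ a ≤ κ * D ∧ b ≤ κ * D ∧
        (∀ p ∈ ring a b, e (s + p.1) (r + p.2) < (D : ℝ)⁻¹) ∧
        D * ∑ p ∈ ring a b, e (s + p.1) (r + p.2) ≤ ε ∧
        (c : ZMod N) * (∑ t ∈ Finset.range a, ∑ x ∈ Finset.range b, q (s + t) (r + x)) ≠ 0)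
    (hε : 0 < ε) (f : ZMod n → ZMod L → ZMod N) (hf : (c : ZMod N) * (∑ t, ∑ x, f t x) ≠ 0)
    (U : Link n L l → SU N) :
    ∃ (s : ZMod n) (r : ZMod L), S - ε ≤ EB k (κ * D) f s r U := by
  obtain ⟨F, lab, C, hfra, -, hCD, hgood⟩ := hky
  by_contra hcon
  push Not at hcon
  have he : ∀ (t : ZMod n) (x : ZMod L), 0 ≤ cT k (f t x).val U t x :=
    fun t x => cT_nonneg hζ _ _ _ _
  obtain ⟨s, r, a, b, ha, hb, haK, hbK, -, hr2, hr3⟩ := hcomb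
    (fun t x => cT k (f t x).val U t x) (fun t x => chT lab (f t x).val U t x) he
    (fun t x h => by
      refine hgood _ _ _ _ ?_
      rw [← cT_lift]; exact h) (fun s r => by
      have := hcon s r
      unfold EB at this
      linarith) (by rw [sum_chT]; exact hf)
  obtain ⟨Q, hQ⟩ : ∃ Q, Q = ∑ t ∈ Finset.range a, ∑ x ∈ Finset.range b,
      chT lab (f (s + t) (r + x)).val U (s + t) (r + x) := ⟨_, rfl⟩
  have h1 : (∑ t ∈ Finset.range a, ∑ x ∈ Finset.range b,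
      chN lab (f (s + t) (r + x)).val (lift s r U) t x) = ((Q.val : ℕ) : ZMod N) := by
    rw [ZMod.natCast_val, ZMod.cast_id, hQ]
    refine Finset.sum_congr rfl fun t _ => Finset.sum_congr rfl fun x _ => ?_
    rw [chT_lift]
  have h2 := hfra.key (fun t x => (f (s + t) (r + x)).val) (lift s r U) a b ha hb Q.val h1
  have h3 := hS Q.val (fun hd => hr3 (by
    rw [← hQ]
    exact mul_zero_of hd))
  have e2 : (∑ p ∈ ring a b, cN k (f (s + (p.1 : ℕ)) (r + (p.2 : ℕ))).val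
      (lift s r U) p.1 p.2) = ∑ p ∈ ring a b,
        cT k (f (s + (p.1 : ℕ)) (r + (p.2 : ℕ))).val U (s + (p.1 : ℕ)) (r + (p.2 : ℕ)) :=
    Finset.sum_congr rfl fun p _ => cN_lift _ _ _ _ _ _ _
  have e3 : 0 ≤ ∑ p ∈ ring a b,
        cT k (f (s + (p.1 : ℕ)) (r + (p.2 : ℕ))).val U (s + (p.1 : ℕ)) (r + (p.2 : ℕ)) :=
    Finset.sum_nonneg fun p _ => he _ _
  have e4 := mul_le_mul_of_nonneg_right hCD e3
  rw [e2] at h2
  have e5 : EN k (fun t x => (f (s + t) (r + x)).val) a b (lift s r U) ≤ EB k (κ * D) f s r U := by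
    unfold EN EB
    simp only [cN_lift]
    refine (Finset.sum_le_sum fun t _ =>
      Finset.sum_le_sum_of_subset_of_nonneg (Finset.range_mono hbK) fun _ _ _ => he _ _).trans ?_
    exact Finset.sum_le_sum_of_subset_of_nonneg (Finset.range_mono haK) fun _ _ _ =>
      Finset.sum_nonneg fun _ _ => he _ _
  have e6 := hcon s r
  linarith

end

/-- numbers -/
theorem up_num {a b ε : ℝ} {r l : ℕ} {β : ℝ} (hl : 1 ≤ l) (ha : 0 ≤ a) (hb : 0 ≤ b) (hε : 0 < ε)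
    (hβ1 : 1 ≤ β) (hβ : (6 * (a * b) / ε) ^ 2 * (l : ℝ) ^ (2 * r) ≤ β) :
    a * l ^ r * (b * (1 + Real.log β)) ≤ β * (ε / 2) := by
  have hlr : (1 : ℝ) ≤ l := by exact_mod_cast hl
  have hβ0 : 0 < β := by linarith
  obtain ⟨s, hs⟩ : ∃ s, s = Real.sqrt β := ⟨_, rfl⟩
  have hs1 : 1 ≤ s := by rw [hs, Real.one_le_sqrt]; exact hβ1
  have hss : s * s = β := by rw [hs]; exact Real.mul_self_sqrt hβ0.le
  have hls : 6 * (a * b) / ε * (l : ℝ) ^ r ≤ s := by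
    rw [hs]
    refine Real.le_sqrt_of_sq_le ?_
    rw [mul_pow, ← pow_mul, mul_comm r 2]
    exact hβ
  have hlog : Real.log β ≤ 2 * s := by
    have h1 : Real.log β = 2 * Real.log s := by
      rw [hs, Real.log_sqrt hβ0.le]; ring
    have h2 : Real.log s ≤ s := (Real.log_le_sub_one_of_pos (by linarith)).trans (by linarith)
    rw [h1]; linarith
  have h3 : a * l ^ r * (b * (1 + Real.log β)) ≤ a * l ^ r * (b * (3 * s)) := by
    refine mul_le_mul_of_nonneg_left (mul_le_mul_of_nonneg_left (by linarith) hb) (by positivity)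
  refine h3.trans ?_
  have h4 : 6 * (a * b) * (l : ℝ) ^ r ≤ s * ε := by
    have h5 := mul_le_mul_of_nonneg_right hls hε.le
    calc 6 * (a * b) * (l : ℝ) ^ r = 6 * (a * b) / ε * (l : ℝ) ^ r * ε := by field_simp
      _ ≤ _ := h5
  have h6 := mul_le_mul_of_nonneg_right h4 (show (0 : ℝ) ≤ s / 2 by linarith)
  calc a * l ^ r * (b * (3 * s)) = 6 * (a * b) * (l : ℝ) ^ r * (s / 2) := by ring
    _ ≤ s * ε * (s / 2) := h6
    _ = s * s * (ε / 2) := by ring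
    _ = _ := by rw [hss]

/-- **UP** -/
theorem t_UP (hCOMB : S_COMB2) : S_UP := by
  intro N k _ hN hk hζ P0 Q0 hs _ _ μ _ _ ε hε
  have hinv := inv_inv' μ
  obtain ⟨Ck, q, hCk, hky⟩ := t_KY N k hζ P0 Q0 hs
  obtain ⟨A, B, hA, hAB⟩ := t_AB N k hN hk hζ P0 Q0 hs
  obtain ⟨c0, hc0, hball⟩ := t_BALL N μ
  obtain ⟨κ, hκ, hcomb⟩ := hCOMB N B (ε / 2) (by linarith)
  obtain ⟨a, ha⟩ : ∃ a : ℝ, a = (κ * Ck : ℕ) ^ 2 := ⟨_, rfl⟩
  obtain ⟨b, hb⟩ : ∃ b : ℝ, b = 192 + 16 * |Real.log c0| + 16 * N ^ 2 + 6 := ⟨_, rfl⟩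
  have ha1 : 1 ≤ a := by
    rw [ha]
    have : 1 ≤ κ * Ck := Nat.mul_pos hκ hCk
    have h1 : (1 : ℝ) ≤ (κ * Ck : ℕ) := by exact_mod_cast this
    exact one_le_pow₀ h1
  have hb0 : 0 ≤ b := by rw [hb]; positivity
  obtain ⟨n0, hn0⟩ : ∃ n : ℕ, (6 * (a * b) / ε) ^ 2 ≤ (n : ℝ) := exists_nat_ge _
  refine ⟨n0 + κ * Ck, 2 * (2 * q + 2), by
    have : 1 ≤ κ * Ck := Nat.mul_pos hκ hCk
    omega, fun l _ c S hS hSF β hβ m m' _ _ hm hm' hmβ hmβ' i hi => ?_⟩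
  have hl1 : 1 ≤ l := NeZero.one_le
  have hlr : (1 : ℝ) ≤ l := by exact_mod_cast hl1
  obtain ⟨D, hD⟩ : ∃ D, D = Ck * l ^ q := ⟨_, rfl⟩
  have hD1 : 1 ≤ D := by
    rw [hD]
    exact Nat.mul_pos hCk (Nat.pos_of_ne_zero (pow_ne_zero _ (NeZero.ne l)))
  have hK1 : 1 ≤ κ * D := Nat.mul_pos hκ hD1
  have hkyl := hky l
  rw [← hD] at hkyl
  have hKp : κ * D ≤ (n0 + κ * Ck) * l ^ (2 * (2 * q + 2)) := by
    rw [hD, ← mul_assoc]
    exact Nat.mul_le_mul (by omega) (Nat.pow_le_pow_right hl1 (by omega))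
  have hn0' : (0 : ℝ) ≤ n0 := Nat.cast_nonneg n0
  have hβ1 : 1 ≤ β := by
    refine le_trans ?_ hβ
    have h1 : (1 : ℝ) ≤ ((n0 + κ * Ck : ℕ) : ℝ) := by
      have : 1 ≤ κ * Ck := Nat.mul_pos hκ hCk
      exact_mod_cast (by omega : 1 ≤ n0 + κ * Ck)
    have h2 : (1 : ℝ) ≤ (l : ℝ) ^ (2 * (2 * q + 2)) := one_le_pow₀ hlr
    exact one_le_mul_of_one_le_of_one_le h1 h2
  have hβ0 : 0 < β := by linarith
  have hββ : (6 * (a * b) / ε) ^ 2 * (l : ℝ) ^ (2 * (2 * q + 2)) ≤ β := by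
    refine le_trans ?_ hβ
    refine mul_le_mul_of_nonneg_right (hn0.trans ?_) (by positivity)
    push_cast
    have : (0 : ℝ) ≤ (κ : ℝ) * Ck := by positivity
    linarith
  have hnum := up_num (r := 2 * q + 2) (l := l) (β := β) hl1 (by linarith) hb0 hε hβ1 hββ
  -- the flux
  have hiv : ¬ N ∣ c * i.val := fun hd => hi (mul_zero_of hd)
  have hSB : S ≤ B := (hSF _ hiv).trans (hAB l _).1
  have hsq : ∀ U : Cf N m m' l, ∃ (s : ZMod (2 * m)) (r : ZMod (2 * m')),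
      S - ε / 2 ≤ EB k (κ * D) (fl i 0 0) s r U := fun U =>
    square_of' hD1 hkyl hSB hSF (hcomb c D hD1 (2 * m) (2 * m') (by omega) (by omega)) (by linarith)
      (fl i 0 0) (by rw [sum_fl]; exact hi) U
  obtain ⟨η, hη⟩ : ∃ η : ℝ, η = (Real.sqrt β)⁻¹ := ⟨_, rfl⟩
  have hsb : 1 ≤ Real.sqrt β := by rw [Real.one_le_sqrt]; exact hβ1
  have hη0 : 0 < η := by rw [hη]; positivity
  have hη1 : η ≤ 1 := by rw [hη]; exact inv_le_one_of_one_le₀ hsb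
  have hη2 : β * η ^ 2 = 1 := by
    rw [hη, inv_pow, Real.sq_sqrt hβ0.le]; field_simp
  have hlη : Real.log η = -(Real.log β / 2) := by
    rw [hη, Real.log_inv, Real.log_sqrt hβ0.le]
  have hmain := Zi_le hζ μ (β := β) (η := η) (S := S) (ε1 := ε / 2) (m := m) (m' := m') (l := l)
    hβ0.le hη0 hK1 (by omega) (by omega) i hsq
  refine hmain.trans ?_
  have hZ := ZZ_pos (N := N) (m := m) (m' := m') (l := l) μ k β
  obtain ⟨w, hw⟩ : ∃ w : ℝ, w = |Real.log c0| + N ^ 2 * Real.log β := ⟨_, rfl⟩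
  have hlogβ : 0 ≤ Real.log β := Real.log_nonneg hβ1
  have hw0 : 0 ≤ w := by rw [hw]; positivity
  have hb1 : Real.exp (-w) ≤ ball μ η := by
    refine le_trans ?_ (hball η hη0 hη1)
    have h1 : Real.log (c0 * η ^ (2 * N ^ 2)) = Real.log c0 + (2 * N ^ 2 : ℕ) * Real.log η := by
      rw [Real.log_mul hc0.ne' (pow_pos hη0 _).ne', Real.log_pow]
    rw [← Real.exp_log (show 0 < c0 * η ^ (2 * N ^ 2) by positivity), h1, hlη, Real.exp_le_exp, hw]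
    push_cast
    have := neg_abs_le (Real.log c0)
    linarith
  have hb2 : (ball μ η ^ (4 * l ^ 2))⁻¹ ≤ Real.exp (4 * (l : ℝ) ^ 2 * w) := by
    have h1 : Real.exp (-(4 * (l : ℝ) ^ 2 * w)) ≤ ball μ η ^ (4 * l ^ 2) := by
      have h2 := pow_le_pow_left₀ (Real.exp_pos _).le hb1 (4 * l ^ 2)
      rw [← Real.exp_nat_mul] at h2
      refine le_trans (le_of_eq ?_) h2
      congr 1
      push_cast
      ring
    have h3 := inv_anti₀ (Real.exp_pos _) h1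
    rwa [← Real.exp_neg, neg_neg] at h3
  have hX : ((ball μ η ^ (4 * l ^ 2))⁻¹ * Real.exp (β * (48 * (l : ℝ) ^ 2 * η ^ 2))) ^
      (4 * (κ * D) * (κ * D)) ≤ Real.exp ((4 * (κ * D : ℕ) * (κ * D : ℕ)) *
        (4 * (l : ℝ) ^ 2 * w + 48 * (l : ℝ) ^ 2)) := by
    have h1 : β * (48 * (l : ℝ) ^ 2 * η ^ 2) = 48 * (l : ℝ) ^ 2 := by
      calc β * (48 * (l : ℝ) ^ 2 * η ^ 2) = 48 * (l : ℝ) ^ 2 * (β * η ^ 2) := by ring
        _ = _ := by rw [hη2, mul_one]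
    rw [h1]
    have h2 : (ball μ η ^ (4 * l ^ 2))⁻¹ * Real.exp (48 * (l : ℝ) ^ 2) ≤
        Real.exp (4 * (l : ℝ) ^ 2 * w + 48 * (l : ℝ) ^ 2) := by
      rw [Real.exp_add]
      exact mul_le_mul_of_nonneg_right hb2 (Real.exp_pos _).le
    have hbp := ball_pos μ hη0
    have h3 := pow_le_pow_left₀ (by positivity) h2 (4 * (κ * D) * (κ * D))
    rw [← Real.exp_nat_mul] at h3
    refine h3.trans (le_of_eq ?_)
    congr 1
    push_cast
    ring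
  have hmm : ((2 * m : ℕ) : ℝ) * ((2 * m' : ℕ) : ℝ) ≤ Real.exp (6 * (1 + Real.log β)) := by
    have h1 : ((2 * m : ℕ) : ℝ) * ((2 * m' : ℕ) : ℝ) ≤ 4 * (β ^ 2 * β ^ 2) := by
      push_cast
      have : (m : ℝ) * m' ≤ β ^ 2 * β ^ 2 := by
        exact mul_le_mul hmβ hmβ' (Nat.cast_nonneg _) (by positivity)
      linarith
    refine h1.trans ?_
    have h2 : (4 : ℝ) ≤ Real.exp 6 := by
      have := Real.add_one_le_exp (6 : ℝ)
      linarith
    have h3 : β ^ 2 * β ^ 2 ≤ Real.exp (6 * Real.log β) := by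
      have h4 : β ^ 2 * β ^ 2 = Real.exp (4 * Real.log β) := by
        rw [show (4 : ℝ) * Real.log β = ((4 : ℕ) : ℝ) * Real.log β by norm_num,
          Real.exp_nat_mul, Real.exp_log hβ0]
        ring
      rw [h4, Real.exp_le_exp]
      linarith
    calc 4 * (β ^ 2 * β ^ 2) ≤ Real.exp 6 * Real.exp (6 * Real.log β) :=
          mul_le_mul h2 h3 (by positivity) (Real.exp_pos _).le
      _ = _ := by rw [← Real.exp_add]; congr 1; ring
  obtain ⟨X, hXe⟩ : ∃ X, X = ((ball μ η ^ (4 * l ^ 2))⁻¹ *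
      Real.exp (β * (48 * (l : ℝ) ^ 2 * η ^ 2))) ^ (4 * (κ * D) * (κ * D)) := ⟨_, rfl⟩
  rw [← hXe] at hX ⊢
  have hX0 : 0 ≤ X := by
    have hbp := ball_pos μ hη0
    rw [hXe]; positivity
  have hfin : ((2 * m : ℕ) : ℝ) * ((2 * m' : ℕ) : ℝ) * (Real.exp (-(β * (S - ε / 2))) * X) ≤
      Real.exp (-(β * (S - ε))) := by
    have h1 : ((2 * m : ℕ) : ℝ) * ((2 * m' : ℕ) : ℝ) * (Real.exp (-(β * (S - ε / 2))) * X) ≤
        Real.exp (6 * (1 + Real.log β)) * (Real.exp (-(β * (S - ε / 2))) *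
          Real.exp ((4 * (κ * D : ℕ) * (κ * D : ℕ)) * (4 * (l : ℝ) ^ 2 * w + 48 * (l : ℝ) ^ 2))) := by
      refine mul_le_mul hmm ?_ (by positivity) (Real.exp_pos _).le
      exact mul_le_mul_of_nonneg_left hX (Real.exp_pos _).le
    refine h1.trans ?_
    rw [← Real.exp_add, ← Real.exp_add, Real.exp_le_exp]
    have h2 : 6 * (1 + Real.log β) + (4 * (κ * D : ℕ) * (κ * D : ℕ)) *
        (4 * (l : ℝ) ^ 2 * w + 48 * (l : ℝ) ^ 2) ≤ a * l ^ (2 * q + 2) * (b * (1 + Real.log β)) := by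
      have e1 : ((κ * D : ℕ) : ℝ) * ((κ * D : ℕ) : ℝ) * (l : ℝ) ^ 2 = a * l ^ (2 * q + 2) := by
        rw [ha, hD]; push_cast; ring
      have e2 : (4 * (κ * D : ℕ) * (κ * D : ℕ)) * (4 * (l : ℝ) ^ 2 * w + 48 * (l : ℝ) ^ 2) =
          (((κ * D : ℕ) : ℝ) * ((κ * D : ℕ) : ℝ) * (l : ℝ) ^ 2) * (16 * w + 192) := by ring
      rw [e2, e1]
      have e3 : 1 ≤ a * (l : ℝ) ^ (2 * q + 2) := by
        have : (1 : ℝ) ≤ (l : ℝ) ^ (2 * q + 2) := one_le_pow₀ hlr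
        exact one_le_mul_of_one_le_of_one_le ha1 this
      have e4 : 6 * (1 + Real.log β) ≤ a * (l : ℝ) ^ (2 * q + 2) * (6 * (1 + Real.log β)) :=
        le_mul_of_one_le_left (by linarith) e3
      have e5 : 16 * w + 192 + 6 * (1 + Real.log β) ≤ b * (1 + Real.log β) := by
        rw [hb, hw]
        have := mul_nonneg (abs_nonneg (Real.log c0)) hlogβ
        have h5 : (0 : ℝ) ≤ (N : ℝ) ^ 2 := by positivity
        linarith
      have e6 := mul_le_mul_of_nonneg_left e5 (show 0 ≤ a * (l : ℝ) ^ (2 * q + 2) by linarith)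
      linarith
    linarith
  calc ((2 * m : ℕ) : ℝ) * (((2 * m' : ℕ) : ℝ) * (Real.exp (-(β * (S - ε / 2))) *
        (X * ZZ μ m m' l k β)))
      = (((2 * m : ℕ) : ℝ) * ((2 * m' : ℕ) : ℝ) * (Real.exp (-(β * (S - ε / 2))) * X)) *
        ZZ μ m m' l k β := by ring
    _ ≤ _ := mul_le_mul_of_nonneg_right hfin hZ.le

end

end Run7.h4.QS
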