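import Pool.Agent.Run7.h4.QS.KY
import Pool.Agent.Run7.h4.DC.Fin

/-!
# AB: bounds for the actions of the vortices, uniform in `l`
-/

open Matrix MeasureTheory Filter Topology
open Run7.h4.YM Run7.h4.VS Run7.h182.QS Run7.h4.DC

namespace Run7.h4.QS

noncomputable section

/-- **AB** -/
theorem t_AB : S_AB := by
  classical
  intro N k _ hN hk hζ P0 Q0 hs
  obtain ⟨Ck, q, hCk, hky⟩ := t_KY N k hζ P0 Q0 hs
  obtain ⟨b, hb, hbd⟩ := lim_bound (N := N) hN hk
  choose ix hix using fun j => exists_flux hζ j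
  have hrel : ∀ j, (k : ZMod N) * (ix j : ℕ) = (j : ℕ) := fun j => flux_rel (hix j)
  have hku : IsUnit (k : ZMod N) := (ZMod.isUnit_iff_coprime k N).mpr hk
  obtain ⟨S, hS⟩ : ∃ S : ℕ → ℕ → ℝ, S = fun l j =>
      if h : l ≠ 0 then (haveI : NeZero l := ⟨h⟩; SF k P0 Q0 l (ix j)) else 0 := ⟨_, rfl⟩
  have hSl : ∀ (l : ℕ) [NeZero l] (j : ℕ), S l j = SF k P0 Q0 l (ix j) := by
    intro l hl j
    rw [hS]
    simp only
    rw [dif_pos hl.out]
  have hlim : IsLim N k S := by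
    intro l _ j
    obtain ⟨F, lab, C, hfra, -, -, -⟩ := hky l
    rw [hSl]
    refine (hfra.lim hs (ix j)).congr fun p => ?_
    unfold Sm minAction
    congr 1
    ext E
    simp only [Set.mem_range]
    constructor
    · rintro ⟨U, rfl⟩
      exact ⟨U, action2_AT hζ (hix j) U⟩
    · rintro ⟨U, rfl⟩
      exact ⟨U, (action2_AT hζ (hix j) U).symm⟩
  have hback : ∀ (l : ℕ) [NeZero l] (i : ℕ), SF k P0 Q0 l i = S l (k * i) := by
    intro l _ i
    rw [hSl]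
    refine SF_congr hζ P0 Q0 ?_
    have h3 := hrel (k * i)
    push_cast at h3
    exact (hku.mul_left_cancel h3).symm
  obtain ⟨F, lab, C, hfra, -, -, hgood⟩ := hky 1
  have hD : (0 : ℝ) < ((Ck * 1 ^ q : ℕ) : ℝ)⁻¹ := by
    have : 0 < Ck * 1 ^ q := by
      rw [one_pow, mul_one]; omega
    positivity
  refine ⟨((Ck * 1 ^ q : ℕ) : ℝ)⁻¹, b, hD, fun l _ i => ⟨?_, fun hi => ?_⟩⟩
  · rw [hback]
    exact hbd S hlim l (k * i)
  · have h1 : ((Ck * 1 ^ q : ℕ) : ℝ)⁻¹ ≤ SF k P0 Q0 1 i := SF_pos hζ hD hgood hi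
    refine h1.trans ?_
    rw [hback, hback]
    have h2 := lim_mul hlim 1 l (k * i)
    rwa [mul_one] at h2

end

end Run7.h4.QS
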