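import Pool.Agent.Run7.h4.QS.Key
import Pool.Agent.Run7.h182.QS.Iface
import Pool.Agent.Run7.h182.VS.FR
import Pool.Agent.Run7.h182.VS.LK
import Pool.Agent.Run7.h630.VS.A1
import Pool.Agent.Run7.h630.VS.A2

/-!
# KY: the constants of the frames and of the labels are polynomial in `l`
-/

open Matrix MeasureTheory
open Run7.h4.YM Run7.h4.VS Run7.h182.QS

namespace Run7.h4.QS

noncomputable section

section

variable {N k : ℕ} [NeZero N] (hζ : IsPrimitiveRoot (om N k) N) {P0 Q0 : SU N}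

open Run7.h182.VS in
theorem fr_exp (hstd : Std N k hζ P0 Q0) {C : ℝ} (hC : 0 < C)
    (hA : ∀ P Q : SU N, ∃ g : SU N,
      dd (g⁻¹ * P * g) P0 ≤ C * dd (Q * P) (cz hζ 1 * (P * Q)) ∧
      dd (g⁻¹ * Q * g) Q0 ≤ C * dd (Q * P) (cz hζ 1 * (P * Q))) (l : ℕ) [NeZero l] :
    FRl N k l P0 Q0 (2 * ((l : ℝ) * l + C * (l * l))) := by
  intro s
  obtain ⟨g0, hg1, hg2⟩ := hA (PL s) (QL s)
  set ε := Real.sqrt (2 * VL k s) with hε
  have hε0 : 0 ≤ ε := Real.sqrt_nonneg _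
  have h : ∀ y, dd (tz hζ y * (s.1 y * s.2 (y + (1, 0)))) (s.2 y * s.1 (y + (0, 1))) ≤ ε :=
    VL_le hζ s
  have hflux : dd (QL s * PL s) (cz hζ 1 * (PL s * QL s)) ≤ l * (l * ε) := by
    have h1 := col_move' hζ h l
    rw [ZC_pos hζ (NeZero.pos l) le_rfl, ZMod.natCast_self, dd_comm] at h1
    exact h1
  have hθ : 0 ≤ C * (l * (l * ε)) := by positivity
  have h1 : dd (g0⁻¹ * PL s * g0) P0 ≤ C * (l * (l * ε)) :=
    hg1.trans (mul_le_mul_of_nonneg_left hflux hC.le)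
  have h2 : dd (g0⁻¹ * QL s * g0) Q0 ≤ C * (l * (l * ε)) :=
    hg2.trans (mul_le_mul_of_nonneg_left hflux hC.le)
  refine ⟨gg s g0 P0 Q0, fun y => ?_⟩
  obtain ⟨h3, h4⟩ := frames hζ hstd.rel hε0 hθ h h1 h2 y
  have h5 : ε ≤ 2 * Real.sqrt (VL k s) := by
    rw [hε, Real.sqrt_mul (by norm_num)]
    have : Real.sqrt 2 ≤ 2 := by
      rw [Real.sqrt_le_left (by norm_num)]; norm_num
    exact mul_le_mul_of_nonneg_right this (Real.sqrt_nonneg _)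
  have h6 : (l : ℝ) * (l * ε) + C * (l * (l * ε)) ≤
      2 * ((l : ℝ) * l + C * (l * l)) * Real.sqrt (VL k s) := by
    have h7 : 0 ≤ (l : ℝ) * l + C * (l * l) := by positivity
    calc (l : ℝ) * (l * ε) + C * (l * (l * ε)) = ((l : ℝ) * l + C * (l * l)) * ε := by ring
      _ ≤ ((l : ℝ) * l + C * (l * l)) * (2 * Real.sqrt (VL k s)) :=
        mul_le_mul_of_nonneg_left h5 h7
      _ = _ := by ring
  exact ⟨h3.trans h6, h4.trans h6⟩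

open Run7.h182.VS in
theorem lk_exp {C : ℝ} (hC : 0 < C)
    (hW : ∀ W : SU N, ∃ i : ℕ,
      dd W (cz hζ i) ≤ C * (dd (W * P0) (P0 * W) + dd (W * Q0) (Q0 * W))) (l : ℕ) [NeZero l] :
    LKl N k l hζ P0 Q0 (4 * (2 * C * (l + 1) + 2 * l)) := by
  intro s s' u g g' e hs hs'
  have he : 0 ≤ e := (dd_nonneg _ _).trans (hs 0).1
  set κ := Real.sqrt (2 * KL s u s') with hκ
  have hκ0 : 0 ≤ κ := Real.sqrt_nonneg _
  set w : Fib l → SU N := fun y => (g y)⁻¹ * u y * g' y with hw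
  set η := 2 * e + κ with hη
  have hη0 : 0 ≤ η := by positivity
  have h1 : ∀ y : Fib l, dd (w y * (vacF (l := l) P0 Q0).1 y)
      ((vacF (l := l) P0 Q0).1 y * w (y + (1, 0))) ≤ η := fun y =>
    frame_rel (hs y).1 (hs' y).1 (KL_le s s' u y).1
  have h2 : ∀ y : Fib l, dd (w y * (vacF (l := l) P0 Q0).2 y)
      ((vacF (l := l) P0 Q0).2 y * w (y + (0, 1))) ≤ η := fun y =>
    frame_rel (hs y).2 (hs' y).2 (KL_le s s' u y).2
  have hr : ∀ b : ZMod l, dd (w (1, b) * P0) (P0 * w (1, b)) ≤ (l + 1) * η ∧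
      ∀ a, dd (w (1, b)) (w (a, b)) ≤ l * η := by
    intro b
    refine line_move (f := fun a => w (a, b)) hη0 ?_ ?_
    · have := h1 (0, b)
      simpa [vacF] using this
    · intro a ha
      have := h1 (a, b)
      simpa [vacF, ha] using this
  have hc : ∀ a : ZMod l, dd (w (a, 1) * Q0) (Q0 * w (a, 1)) ≤ (l + 1) * η ∧
      ∀ b, dd (w (a, 1)) (w (a, b)) ≤ l * η := by
    intro a
    refine line_move (f := fun b => w (a, b)) hη0 ?_ ?_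
    · have := h2 (a, 0)
      simpa [vacF] using this
    · intro b hb
      have := h2 (a, b)
      simpa [vacF, hb] using this
  obtain ⟨i, hi⟩ := hW (w (1, 1))
  refine ⟨i, fun y => ?_⟩
  obtain ⟨a, b⟩ := y
  have h3 := (hr 1).1
  have h4 := (hc 1).1
  have h5 := (hc 1).2 b
  have h6 := (hr b).2 a
  have h7 := dd_triangle (w (a, b)) (w (1, b)) (cz hζ i)
  have h8 := dd_triangle (w (1, b)) (w (1, 1)) (cz hζ i)
  rw [dd_comm (w (a, b)) (w (1, b))] at h7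
  rw [dd_comm (w (1, b)) (w (1, 1))] at h8
  have h9 : dd (w (a, b)) (cz hζ i) ≤ (2 * C * (l + 1) + 2 * l) * η := by
    have : C * (dd (w (1, 1) * P0) (P0 * w (1, 1)) + dd (w (1, 1) * Q0) (Q0 * w (1, 1))) ≤
        C * ((l + 1) * η + (l + 1) * η) := mul_le_mul_of_nonneg_left (add_le_add h3 h4) hC.le
    nlinarith
  have h10 : κ ≤ 2 * Real.sqrt (KL s u s') := by
    rw [hκ, Real.sqrt_mul (by norm_num)]
    have : Real.sqrt 2 ≤ 2 := by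
      rw [Real.sqrt_le_left (by norm_num)]; norm_num
    exact mul_le_mul_of_nonneg_right this (Real.sqrt_nonneg _)
  have h11 : η ≤ 4 * (e + Real.sqrt (KL s u s')) := by
    have := Real.sqrt_nonneg (KL s u s')
    rw [hη]; linarith
  refine h9.trans ?_
  have hK : (0 : ℝ) ≤ 2 * C * (l + 1) + 2 * l := by positivity
  calc (2 * C * (l + 1) + 2 * l) * η ≤ (2 * C * (l + 1) + 2 * l) *
      (4 * (e + Real.sqrt (KL s u s'))) := mul_le_mul_of_nonneg_left h11 hK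
    _ = _ := by ring

theorem ky_of {C0 : ℝ} {q : ℕ} (hC0 : 0 < C0)
    (h1 : ∀ l : ℕ, [NeZero l] → FRl N k l P0 Q0 (C0 * l ^ q))
    (h2 : ∀ l : ℕ, [NeZero l] → LKl N k l hζ P0 Q0 (C0 * l ^ q)) :
    ∃ C : ℕ, 1 ≤ C ∧ ∀ (l : ℕ) [NeZero l], Ky hζ P0 Q0 l (C * l ^ (4 * q + 2)) := by
  obtain ⟨r, hr, hgap⟩ := exists_gap hζ
  obtain ⟨B, hB⟩ : ∃ B : ℝ, B = (1 + C0) * (1 + C0) := ⟨_, rfl⟩
  have hB1 : 1 ≤ B := by rw [hB]; nlinarith
  obtain ⟨D0, hD0⟩ : ∃ D : ℝ, D = (26 * B / r) ^ 2 + (1 + 3456 * B ^ 2) := ⟨_, rfl⟩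
  obtain ⟨Cn, hCn⟩ : ∃ n : ℕ, D0 ≤ n := exists_nat_ge _
  have hD1 : 1 ≤ D0 := by rw [hD0]; nlinarith [sq_nonneg (26 * B / r), sq_nonneg B]
  have hCn1 : 1 ≤ Cn := by
    have : (1 : ℝ) ≤ Cn := hD1.trans hCn
    exact_mod_cast this
  have hCn0 : (0 : ℝ) < Cn := by linarith
  refine ⟨Cn, hCn1, fun l _ => ?_⟩
  have hl1 : (1 : ℝ) ≤ l := by exact_mod_cast NeZero.pos l
  have hl0 : (0 : ℝ) < l := by linarith
  have hlq : (1 : ℝ) ≤ (l : ℝ) ^ q := one_le_pow₀ hl1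
  have hc : 0 < C0 * (l : ℝ) ^ q := by positivity
  obtain ⟨F, lab, h⟩ := exists_fra' (l := l) hζ (P0 := P0) (Q0 := Q0) hc hc (h1 l) (h2 l)
  obtain ⟨C, hC⟩ : ∃ C, C = max (C0 * (l : ℝ) ^ q) (C0 * (l : ℝ) ^ q * max (C0 * (l : ℝ) ^ q) 1) :=
    ⟨_, rfl⟩
  rw [← hC] at h
  have hCB : C ≤ B * (l : ℝ) ^ (2 * q) := by
    have e1 : (l : ℝ) ^ (2 * q) = (l : ℝ) ^ q * (l : ℝ) ^ q := by rw [← pow_add]; congr 1; ring
    rw [hC, hB, e1]
    refine max_le ?_ ?_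
    · have : C0 * (l : ℝ) ^ q ≤ (1 + C0) * (1 + C0) * ((l : ℝ) ^ q * 1) := by nlinarith
      refine this.trans ?_
      gcongr
    · have h3 : max (C0 * (l : ℝ) ^ q) 1 ≤ (1 + C0) * (l : ℝ) ^ q := by
        refine max_le ?_ ?_
        · nlinarith
        · nlinarith
      calc C0 * (l : ℝ) ^ q * max (C0 * (l : ℝ) ^ q) 1
          ≤ ((1 + C0) * (l : ℝ) ^ q) * ((1 + C0) * (l : ℝ) ^ q) := by
            refine mul_le_mul ?_ h3 (by positivity) (by positivity)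
            nlinarith
        _ = _ := by ring
  have hCp := h.pos
  have hl2q : (1 : ℝ) ≤ (l : ℝ) ^ (2 * q) := one_le_pow₀ hl1
  have e2 : (l : ℝ) ^ (4 * q + 2) = (l : ℝ) ^ 2 * ((l : ℝ) ^ (2 * q) * (l : ℝ) ^ (2 * q)) := by
    rw [← pow_add, ← pow_add]; congr 1; ring
  have hl2 : (1 : ℝ) ≤ (l : ℝ) ^ 2 := one_le_pow₀ hl1
  have eD : ((Cn * l ^ (4 * q + 2) : ℕ) : ℝ) = Cn * (l : ℝ) ^ (4 * q + 2) := by push_cast; rfl
  have h11 : (1 : ℝ) ≤ (l : ℝ) ^ (4 * q + 2) := one_le_pow₀ hl1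
  have hquad : 1 + 3456 * (l : ℝ) ^ 2 * C ^ 2 ≤ Cn * (l : ℝ) ^ (4 * q + 2) := by
    have h9 : C ^ 2 ≤ (B * (l : ℝ) ^ (2 * q)) ^ 2 := pow_le_pow_left₀ hCp.le hCB 2
    have h10 : 3456 * (l : ℝ) ^ 2 * C ^ 2 ≤ 3456 * (l : ℝ) ^ 2 * (B * (l : ℝ) ^ (2 * q)) ^ 2 :=
      mul_le_mul_of_nonneg_left h9 (by positivity)
    have h12 : 3456 * (l : ℝ) ^ 2 * (B * (l : ℝ) ^ (2 * q)) ^ 2 =
        3456 * B ^ 2 * (l : ℝ) ^ (4 * q + 2) := by rw [e2]; ring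
    have h13 : (1 + 3456 * B ^ 2) * (l : ℝ) ^ (4 * q + 2) ≤ Cn * (l : ℝ) ^ (4 * q + 2) := by
      refine mul_le_mul_of_nonneg_right (le_trans ?_ hCn) (by positivity)
      rw [hD0]; nlinarith [sq_nonneg (26 * B / r)]
    nlinarith
  refine ⟨F, lab, C, h, ?_, ?_, fun m u t x hlt => good' h hr hgap m u t x (hlt.trans_le ?_)⟩
  · rw [eD]
    have h14 : C ≤ 1 + 3456 * (l : ℝ) ^ 2 * C ^ 2 := by nlinarith [sq_nonneg (C - 1), sq_nonneg C]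
    linarith
  · rw [eD]; exact hquad
  · rw [eD]
    have h4 : 24 * C + 2 ≤ 26 * B * (l : ℝ) ^ (2 * q) := by nlinarith
    have h5 : (26 * B * (l : ℝ) ^ (2 * q) / r) ^ 2 ≤ Cn * (l : ℝ) ^ (4 * q + 2) := by
      have e3 : (26 * B * (l : ℝ) ^ (2 * q) / r) ^ 2 =
          (26 * B / r) ^ 2 * (1 * ((l : ℝ) ^ (2 * q) * (l : ℝ) ^ (2 * q))) := by ring
      rw [e3, e2]
      refine mul_le_mul (le_trans ?_ hCn) ?_ (by positivity) hCn0.le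
      · rw [hD0]; nlinarith [sq_nonneg B]
      · exact mul_le_mul_of_nonneg_right hl2 (by positivity)
    have h6 : (Cn * (l : ℝ) ^ (4 * q + 2))⁻¹ ≤ ((26 * B * (l : ℝ) ^ (2 * q) / r) ^ 2)⁻¹ :=
      inv_anti₀ (by positivity) h5
    refine h6.trans ?_
    have h7 : ((26 * B * (l : ℝ) ^ (2 * q) / r) ^ 2)⁻¹ = (r / (26 * B * (l : ℝ) ^ (2 * q))) ^ 2 := by
      rw [← inv_pow, inv_div]
    rw [h7]
    refine pow_le_pow_left₀ (by positivity) ?_ 2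
    exact div_le_div_of_nonneg_left hr.le (by linarith) h4

end

/-- **KY** -/
theorem t_KY : S_KY := by
  intro N k _ hζ P0 Q0 hstd
  obtain ⟨C1, hC1, hA⟩ := Run7.h630.VS.tA1 N k hζ P0 Q0 hstd
  obtain ⟨C2, hC2, hW⟩ := Run7.h630.VS.tA2 N k hζ P0 Q0 hstd
  obtain ⟨C0, hC0⟩ : ∃ C0 : ℝ, C0 = 2 * (1 + C1) + (16 * C2 + 8) := ⟨_, rfl⟩
  have hC0p : 0 < C0 := by rw [hC0]; positivity
  have hF : ∀ l : ℕ, [NeZero l] → FRl N k l P0 Q0 (C0 * l ^ 2) := by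
    intro l _ s
    obtain ⟨g, hg⟩ := fr_exp hζ hstd hC1 hA l s
    have hl : (0 : ℝ) ≤ l := Nat.cast_nonneg l
    have h2 : 2 * ((l : ℝ) * l + C1 * (l * l)) ≤ C0 * (l : ℝ) ^ 2 := by
      rw [hC0]
      nlinarith [sq_nonneg (l : ℝ), mul_nonneg hC2.le (sq_nonneg (l : ℝ))]
    have h3 := mul_le_mul_of_nonneg_right h2 (Real.sqrt_nonneg (VL k s))
    exact ⟨g, fun y => ⟨(hg y).1.trans h3, (hg y).2.trans h3⟩⟩
  have hL : ∀ l : ℕ, [NeZero l] → LKl N k l hζ P0 Q0 (C0 * l ^ 2) := by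
    intro l _ s s' u g g' e hs hs'
    obtain ⟨i, hi⟩ := lk_exp hζ hC2 hW l s s' u g g' e hs hs'
    have hl : (1 : ℝ) ≤ l := by exact_mod_cast NeZero.pos l
    have h2 : 4 * (2 * C2 * (l + 1) + 2 * l) ≤ C0 * (l : ℝ) ^ 2 := by
      have h4 : (l : ℝ) ≤ (l : ℝ) ^ 2 := by nlinarith
      have h5 : 4 * (2 * C2 * (l + 1) + 2 * l) ≤ (16 * C2 + 8) * l := by nlinarith
      have h6 : (16 * C2 + 8) * (l : ℝ) ≤ (16 * C2 + 8) * (l : ℝ) ^ 2 :=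
        mul_le_mul_of_nonneg_left h4 (by positivity)
      have h7 : (16 * C2 + 8) * (l : ℝ) ^ 2 ≤ C0 * (l : ℝ) ^ 2 := by
        refine mul_le_mul_of_nonneg_right ?_ (by positivity)
        rw [hC0]; linarith
      linarith
    have he : 0 ≤ e := (dd_nonneg _ _).trans (hs 0).1
    have h3 := mul_le_mul_of_nonneg_right h2
      (add_nonneg he (Real.sqrt_nonneg (KL s u s')))
    exact ⟨i, fun y => (hi y).trans h3⟩
  obtain ⟨C, hC, h⟩ := ky_of (q := 2) hζ (P0 := P0) (Q0 := Q0) hC0p hF hL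
  exact ⟨C, 4 * 2 + 2, hC, h⟩

end

end Run7.h4.QS
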