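import Pool.Agent.Run7.h4.VS.Key

/-!
# KEY with explicit constants
-/

open Matrix MeasureTheory
open Run7.h4.YM Run7.h4.VS

namespace Run7.h4.QS

noncomputable section

/-- the frames of one fibre lattice, with the constant `C` -/
def FRl (N k l : ℕ) [NeZero N] [NeZero l] (P0 Q0 : SU N) (C : ℝ) : Prop :=
  ∀ s : FC N l, ∃ g : Fib l → SU N, ∀ y : Fib l,
    dd ((g y)⁻¹ * s.1 y * g (y + (1, 0))) ((vacF (l := l) P0 Q0).1 y) ≤ C * Real.sqrt (VL k s) ∧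
    dd ((g y)⁻¹ * s.2 y * g (y + (0, 1))) ((vacF (l := l) P0 Q0).2 y) ≤ C * Real.sqrt (VL k s)

/-- the labels, with the constant `C` -/
def LKl (N k l : ℕ) [NeZero N] [NeZero l] (hζ : IsPrimitiveRoot (om N k) N) (P0 Q0 : SU N)
    (C : ℝ) : Prop :=
  ∀ (s s' : FC N l) (u g g' : Fib l → SU N) (e : ℝ),
    (∀ y : Fib l, dd ((g y)⁻¹ * s.1 y * g (y + (1, 0))) ((vacF (l := l) P0 Q0).1 y) ≤ e ∧
      dd ((g y)⁻¹ * s.2 y * g (y + (0, 1))) ((vacF (l := l) P0 Q0).2 y) ≤ e) →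
    (∀ y : Fib l, dd ((g' y)⁻¹ * s'.1 y * g' (y + (1, 0))) ((vacF (l := l) P0 Q0).1 y) ≤ e ∧
      dd ((g' y)⁻¹ * s'.2 y * g' (y + (0, 1))) ((vacF (l := l) P0 Q0).2 y) ≤ e) →
    ∃ i : ℕ, ∀ y : Fib l, dd ((g y)⁻¹ * u y * g' y) (cz hζ i) ≤ C * (e + Real.sqrt (KL s u s'))

section

variable {N l : ℕ} [NeZero N] [NeZero l] {k : ℕ} (hζ : IsPrimitiveRoot (om N k) N)

theorem exists_fra' {P0 Q0 : SU N} {C1 C2 : ℝ} (hC1 : 0 < C1) (hC2 : 0 < C2)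
    (h1 : FRl N k l P0 Q0 C1) (h2 : LKl N k l hζ P0 Q0 C2) :
    ∃ (F : FC N l → Fib l → SU N) (lab : FC N l → (Fib l → SU N) → FC N l → ZMod N),
      Fra hζ P0 Q0 F lab (max C1 (C2 * max C1 1)) := by
  unfold FRl at h1
  unfold LKl at h2
  choose F hF using h1
  have h3 : ∀ (s : FC N l) (u : Fib l → SU N) (s' : FC N l), ∃ i : ℕ, ∀ y : Fib l,
      dd ((F s y)⁻¹ * u y * F s' y) (cz hζ i) ≤
        C2 * (C1 * (Real.sqrt (VL k s) + Real.sqrt (VL k s')) + Real.sqrt (KL s u s')) := by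
    intro s u s'
    have a1 := Real.sqrt_nonneg (VL k s)
    have a2 := Real.sqrt_nonneg (VL k s')
    refine h2 s s' u (F s) (F s') _ (fun y => ?_) (fun y => ?_)
    · obtain ⟨b1, b2⟩ := hF s y
      constructor
      · refine b1.trans ?_
        nlinarith
      · refine b2.trans ?_
        nlinarith
    · obtain ⟨b1, b2⟩ := hF s' y
      constructor
      · refine b1.trans ?_
        nlinarith
      · refine b2.trans ?_
        nlinarith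
  choose lab hlab using h3
  refine ⟨F, fun s u s' => ((lab s u s' : ℕ) : ZMod N), ?_⟩
  have hm : 0 < max C1 (C2 * max C1 1) := lt_of_lt_of_le hC1 (le_max_left _ _)
  refine ⟨hm, fun s y => ?_, fun s s' u y => ?_⟩
  · obtain ⟨b1, b2⟩ := hF s y
    have a1 := Real.sqrt_nonneg (VL k s)
    have a3 : C1 * Real.sqrt (VL k s) ≤ max C1 (C2 * max C1 1) * Real.sqrt (VL k s) :=
      mul_le_mul_of_nonneg_right (le_max_left _ _) a1
    exact ⟨b1.trans a3, b2.trans a3⟩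
  · rw [zc_cast]
    refine (hlab s u s' y).trans ?_
    have a1 := Real.sqrt_nonneg (VL k s)
    have a2 := Real.sqrt_nonneg (VL k s')
    have a3 := Real.sqrt_nonneg (KL s u s')
    have a4 : C1 ≤ max C1 1 := le_max_left _ _
    have a5 : 1 ≤ max C1 1 := le_max_right _ _
    have a6 : C1 * (Real.sqrt (VL k s) + Real.sqrt (VL k s')) + Real.sqrt (KL s u s') ≤
        max C1 1 * (Real.sqrt (VL k s) + Real.sqrt (VL k s') + Real.sqrt (KL s u s')) := by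
      nlinarith
    have a7 : C2 * max C1 1 ≤ max C1 (C2 * max C1 1) := le_max_right _ _
    calc C2 * (C1 * (Real.sqrt (VL k s) + Real.sqrt (VL k s')) + Real.sqrt (KL s u s'))
        ≤ C2 * (max C1 1 * (Real.sqrt (VL k s) + Real.sqrt (VL k s') + Real.sqrt (KL s u s'))) :=
          mul_le_mul_of_nonneg_left a6 hC2.le
      _ = C2 * max C1 1 * (Real.sqrt (VL k s) + Real.sqrt (VL k s') + Real.sqrt (KL s u s')) := by
          ring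
      _ ≤ _ := mul_le_mul_of_nonneg_right a7 (add_nonneg (add_nonneg a1 a2) a3)

variable {hζ} {P0 Q0 : SU N} {F : FC N l → Fib l → SU N}
  {lab : FC N l → (Fib l → SU N) → FC N l → ZMod N} {C : ℝ}

/-- the charge of a good cell vanishes, explicit threshold -/
theorem good' (h : Fra hζ P0 Q0 F lab C) {r : ℝ} (hr : 0 < r)
    (hgap : ∀ i j : ℕ, dd (cz hζ i) (cz hζ j) < r → cz hζ i = cz hζ j)
    (m : ℕ) (u : LC N l) (t x : ℕ) (hc : cN k m u t x < (r / (24 * C + 2)) ^ 2) :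
    chN lab m u t x = 0 := by
  have hC := h.pos
  have hD : 0 < 24 * C + 2 := by linarith
  obtain ⟨E, hE⟩ : ∃ E, E = cN k m u t x := ⟨_, rfl⟩
  have hE0 : 0 ≤ E := by rw [hE]; exact cN_nonneg hζ m u t x
  rw [← hE] at hc
  have hsE : Real.sqrt E < r / (24 * C + 2) := by
    have h1 := Real.sqrt_lt_sqrt hE0 hc
    rwa [Real.sqrt_sq (by positivity)] at h1
  rw [lt_div_iff₀ hD] at hsE
  obtain ⟨v1, v2, v3, v4, k1, k2, k3, k4, w⟩ := cN_parts hζ m u t x (le_of_eq hE.symm)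
  have b1 := h.lkE hE0 v1 v2 k1 0
  have b2 := h.lkE hE0 v3 v4 k2 0
  have b3 := h.lkE hE0 v1 v3 k3 0
  have b4 := h.lkE hE0 v2 v4 k4 0
  have w0 := w 0
  rw [aw_zc hζ, aw_one_eq] at w0
  -- the four links in frames
  obtain ⟨a, ha⟩ : ∃ a, a = gL (F (fsN u t x)) (F (fsN u (t + 1) x)) (u 0 t x) 0 := ⟨_, rfl⟩
  obtain ⟨c, hc'⟩ : ∃ c, c = gL (F (fsN u t (x + 1))) (F (fsN u (t + 1) (x + 1)))
    (u 0 t (x + 1)) 0 := ⟨_, rfl⟩
  obtain ⟨d, hd⟩ : ∃ d, d = gL (F (fsN u t x)) (F (fsN u t (x + 1))) (u 1 t x) 0 := ⟨_, rfl⟩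
  obtain ⟨b, hb⟩ : ∃ b, b = gL (F (fsN u (t + 1) x)) (F (fsN u (t + 1) (x + 1)))
    (u 1 (t + 1) x) 0 := ⟨_, rfl⟩
  rw [← ha] at b1
  rw [← hc'] at b2
  rw [← hd] at b3
  rw [← hb] at b4
  obtain ⟨p, hp⟩ : ∃ p, p = u 0 t x 0 * u 1 (t + 1) x 0 * (u 0 t (x + 1) 0)⁻¹ * (u 1 t x 0)⁻¹ :=
    ⟨_, rfl⟩
  rw [← hp] at w0
  have e1 : a * b * c⁻¹ * d⁻¹ = (F (fsN u t x) 0)⁻¹ * p * F (fsN u t x) 0 := by
    rw [ha, hb, hc', hd, hp]
    unfold gL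
    rw [gpl]
  obtain ⟨z0, hz0⟩ : ∃ z, z = lab (fsN u t x) (u 0 t x) (fsN u (t + 1) x) := ⟨_, rfl⟩
  obtain ⟨z0', hz0'⟩ : ∃ z, z = lab (fsN u t (x + 1)) (u 0 t (x + 1)) (fsN u (t + 1) (x + 1)) :=
    ⟨_, rfl⟩
  obtain ⟨z1, hz1⟩ : ∃ z, z = lab (fsN u t x) (u 1 t x) (fsN u t (x + 1)) := ⟨_, rfl⟩
  obtain ⟨z1', hz1'⟩ : ∃ z, z = lab (fsN u (t + 1) x) (u 1 (t + 1) x) (fsN u (t + 1) (x + 1)) :=
    ⟨_, rfl⟩
  rw [← hz0] at b1
  rw [← hz0'] at b2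
  rw [← hz1] at b3
  rw [← hz1'] at b4
  have hq : chN lab m u t x = z0 + z1' - z0' - z1 + (m : ZMod N) := by
    unfold chN
    rw [← hz0, ← hz0', ← hz1, ← hz1']
  have e2 : zc hζ (z0 + z1' - z0' - z1) =
      zc hζ z0 * zc hζ z1' * (zc hζ z0')⁻¹ * (zc hζ z1)⁻¹ := by
    rw [zc_sub, zc_sub, zc_add]
  have s1 := dd_mul_mul (a * b * c⁻¹) d⁻¹ (zc hζ z0 * zc hζ z1' * (zc hζ z0')⁻¹) (zc hζ z1)⁻¹
  have s2 := dd_mul_mul (a * b) c⁻¹ (zc hζ z0 * zc hζ z1') (zc hζ z0')⁻¹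
  have s3 := dd_mul_mul a b (zc hζ z0) (zc hζ z1')
  rw [dd_inv] at s1 s2
  have s4 : dd (a * b * c⁻¹ * d⁻¹) (zc hζ (z0 + z1' - z0' - z1)) ≤ 24 * C * Real.sqrt E := by
    rw [e2]; linarith
  have s5 : dd (zc hζ (m : ZMod N) * (a * b * c⁻¹ * d⁻¹)) 1 ≤ 2 * Real.sqrt E := by
    have f1 : zc hζ (m : ZMod N) * (a * b * c⁻¹ * d⁻¹) =
        (F (fsN u t x) 0)⁻¹ * (zc hζ (m : ZMod N) * p) * F (fsN u t x) 0 := by
      rw [e1, ← mul_assoc, ← mul_assoc, zc_comm, ← mul_assoc, mul_assoc _ (zc hζ _) p]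
    have f2 : dd (zc hζ (m : ZMod N) * (a * b * c⁻¹ * d⁻¹)) 1 = dd (zc hζ (m : ZMod N) * p) 1 := by
      rw [f1]
      have g1 := dd_mul_right (zc hζ (m : ZMod N) * p) 1 (F (fsN u t x) 0)
      have g2 := dd_mul_left (zc hζ (m : ZMod N) * p * F (fsN u t x) 0) (1 * F (fsN u t x) 0)
        (F (fsN u t x) 0)⁻¹
      rw [← g1, ← g2]
      congr 1
      · group
      · group
    rw [f2]
    have g3 : dd (zc hζ (m : ZMod N) * p) 1 ^ 2 ≤ (2 * Real.sqrt E) ^ 2 := by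
      rw [mul_pow, Real.sq_sqrt hE0]; linarith
    exact le_of_sq_le_sq g3 (by positivity)
  have s6 : dd (zc hζ (m : ZMod N) * zc hζ (z0 + z1' - z0' - z1)) 1 < r := by
    have t1 := dd_triangle (zc hζ (m : ZMod N) * zc hζ (z0 + z1' - z0' - z1))
      (zc hζ (m : ZMod N) * (a * b * c⁻¹ * d⁻¹)) 1
    rw [dd_mul_left, dd_comm (zc hζ (z0 + z1' - z0' - z1)) (a * b * c⁻¹ * d⁻¹)] at t1
    linarith
  rw [← zc_add, ← zc_zero hζ] at s6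
  have s7 : zc hζ ((m : ZMod N) + (z0 + z1' - z0' - z1)) = zc hζ 0 := by
    unfold zc at s6 ⊢
    exact hgap _ _ s6
  rw [hq, add_comm]
  exact zc_inj hζ s7

end

/-- KEY for one `l`, with the threshold `1 / D` and the constant `D` -/
def KEYl (N k l : ℕ) [NeZero N] [NeZero l] (P0 Q0 : SU N) (D : ℝ) : Prop :=
  ∃ lab : FC N l → (Fib l → SU N) → FC N l → ZMod N,
    (∀ (m : ℕ) (u : LC N l) (t x : ℕ), cN k m u t x < 1 / D → chN lab m u t x = 0) ∧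
    ∀ (m : ℕ → ℕ → ℕ) (u : LC N l) (a b : ℕ), 1 ≤ a → 1 ≤ b → ∀ i : ℕ,
      (∑ t ∈ Finset.range a, ∑ x ∈ Finset.range b, chN lab (m t x) u t x) = (i : ZMod N) →
      SF k P0 Q0 l i ≤ EN k m a b u + D * ∑ p ∈ ring a b, cN k (m p.1 p.2) u p.1 p.2

/-- **KEY with constants polynomial in `l`.** -/
theorem keyP {N k : ℕ} [NeZero N] (hζ : IsPrimitiveRoot (om N k) N) (P0 Q0 : SU N) {C0 : ℝ}
    {q : ℕ} (hC0 : 0 < C0) (h1 : ∀ l : ℕ, [NeZero l] → FRl N k l P0 Q0 (C0 * l ^ q))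
    (h2 : ∀ l : ℕ, [NeZero l] → LKl N k l hζ P0 Q0 (C0 * l ^ q)) :
    ∃ D : ℝ, 0 < D ∧ ∀ (l : ℕ) [NeZero l], KEYl N k l P0 Q0 (D * l ^ (4 * q + 2)) := by
  obtain ⟨r, hr, hgap⟩ := exists_gap hζ
  obtain ⟨B, hB⟩ : ∃ B : ℝ, B = (1 + C0) * (1 + C0) := ⟨_, rfl⟩
  have hB1 : 1 ≤ B := by rw [hB]; nlinarith
  obtain ⟨D, hD⟩ : ∃ D : ℝ, D = (26 * B / r) ^ 2 + (1 + 3456 * B ^ 2) := ⟨_, rfl⟩
  have hD0 : 0 < D := by rw [hD]; positivity
  refine ⟨D, hD0, fun l _ => ?_⟩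
  have hl1 : (1 : ℝ) ≤ l := by exact_mod_cast NeZero.pos l
  have hl0 : (0 : ℝ) < l := by linarith
  have hlq : (1 : ℝ) ≤ (l : ℝ) ^ q := one_le_pow₀ hl1
  have hc : 0 < C0 * (l : ℝ) ^ q := by positivity
  obtain ⟨F, lab, h⟩ := exists_fra' (l := l) hζ (P0 := P0) (Q0 := Q0) hc hc (h1 l) (h2 l)
  obtain ⟨C, hC⟩ : ∃ C, C = max (C0 * (l : ℝ) ^ q) (C0 * (l : ℝ) ^ q * max (C0 * (l : ℝ) ^ q) 1) :=
    ⟨_, rfl⟩
  rw [← hC] at h
  have hCB : C ≤ B * (l : ℝ) ^ (2 * q) := by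
    have e1 : (l : ℝ) ^ (2 * q) = (l : ℝ) ^ q * (l : ℝ) ^ q := by rw [← pow_add]; congr 1; ring
    rw [hC, hB, e1]
    refine max_le ?_ ?_
    · have : C0 * (l : ℝ) ^ q ≤ (1 + C0) * (1 + C0) * ((l : ℝ) ^ q * 1) := by nlinarith
      refine this.trans ?_
      gcongr
    · have h3 : max (C0 * (l : ℝ) ^ q) 1 ≤ (1 + C0) * (l : ℝ) ^ q := by
        refine max_le ?_ ?_
        · nlinarith
        · nlinarith
      calc C0 * (l : ℝ) ^ q * max (C0 * (l : ℝ) ^ q) 1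
          ≤ ((1 + C0) * (l : ℝ) ^ q) * ((1 + C0) * (l : ℝ) ^ q) := by
            refine mul_le_mul ?_ h3 (by positivity) (by positivity)
            nlinarith
        _ = _ := by ring
  have hCp := h.pos
  have hl2q : (1 : ℝ) ≤ (l : ℝ) ^ (2 * q) := one_le_pow₀ hl1
  have e2 : (l : ℝ) ^ (4 * q + 2) = (l : ℝ) ^ 2 * ((l : ℝ) ^ (2 * q) * (l : ℝ) ^ (2 * q)) := by
    rw [← pow_add, ← pow_add]; congr 1; ring
  have hl2 : (1 : ℝ) ≤ (l : ℝ) ^ 2 := one_le_pow₀ hl1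
  refine ⟨lab, fun m u t x hlt => good' h hr hgap m u t x (hlt.trans_le ?_), fun m u a b ha hb i hi =>
    (h.key m u a b ha hb i hi).trans ?_⟩
  · -- the threshold
    have h4 : 24 * C + 2 ≤ 26 * B * (l : ℝ) ^ (2 * q) := by nlinarith
    have h5 : (26 * B * (l : ℝ) ^ (2 * q) / r) ^ 2 ≤ D * (l : ℝ) ^ (4 * q + 2) := by
      have e3 : (26 * B * (l : ℝ) ^ (2 * q) / r) ^ 2 =
          (26 * B / r) ^ 2 * (1 * ((l : ℝ) ^ (2 * q) * (l : ℝ) ^ (2 * q))) := by ring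
      rw [e3, e2]
      refine mul_le_mul (by rw [hD]; nlinarith [sq_nonneg B]) ?_ (by positivity) hD0.le
      exact mul_le_mul_of_nonneg_right hl2 (by positivity)
    have h6 : 1 / (D * (l : ℝ) ^ (4 * q + 2)) ≤ 1 / (26 * B * (l : ℝ) ^ (2 * q) / r) ^ 2 :=
      one_div_le_one_div_of_le (by positivity) h5
    refine h6.trans ?_
    have h7 : 1 / (26 * B * (l : ℝ) ^ (2 * q) / r) ^ 2 = (r / (26 * B * (l : ℝ) ^ (2 * q))) ^ 2 := by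
      rw [div_pow, div_pow, one_div_div]
    rw [h7]
    refine pow_le_pow_left₀ (by positivity) ?_ 2
    exact div_le_div_of_nonneg_left hr.le (by linarith) h4
  · have h8 : 1 + 3456 * (l : ℝ) ^ 2 * C ^ 2 ≤ D * (l : ℝ) ^ (4 * q + 2) := by
      have h9 : C ^ 2 ≤ (B * (l : ℝ) ^ (2 * q)) ^ 2 := pow_le_pow_left₀ hCp.le hCB 2
      have h10 : 3456 * (l : ℝ) ^ 2 * C ^ 2 ≤ 3456 * (l : ℝ) ^ 2 * (B * (l : ℝ) ^ (2 * q)) ^ 2 :=
        mul_le_mul_of_nonneg_left h9 (by positivity)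
      have h11 : (1 : ℝ) ≤ (l : ℝ) ^ (4 * q + 2) := one_le_pow₀ hl1
      have h12 : 3456 * (l : ℝ) ^ 2 * (B * (l : ℝ) ^ (2 * q)) ^ 2 =
          3456 * B ^ 2 * (l : ℝ) ^ (4 * q + 2) := by rw [e2]; ring
      have h13 : (1 + 3456 * B ^ 2) * (l : ℝ) ^ (4 * q + 2) ≤ D * (l : ℝ) ^ (4 * q + 2) :=
        mul_le_mul_of_nonneg_right (by rw [hD]; nlinarith [sq_nonneg (26 * B / r)]) (by positivity)
      nlinarith
    have hring : 0 ≤ ∑ p ∈ ring a b, cN k (m p.1 p.2) u p.1 p.2 :=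
      Finset.sum_nonneg fun p _ => cN_nonneg hζ _ _ _ _
    have := mul_le_mul_of_nonneg_right h8 hring
    linarith

end

end Run7.h4.QS
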